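import Pool.Agent.helper88.HT.Spec

set_option autoImplicit false

namespace Pool.Agent.helper88.HT

open Pool.Agent.helper38.Neg Pool.Agent.helper55.NT

theorem NEG : NEG_stmt := by
  intro n s C o
  refine ⟨Circuit.snoc C (Gate.not o), Fin.last (n + s), ?_, ?_⟩
  · intro x
    show Fin.snoc (α := fun _ => Bool) (C.val x) ((Gate.not o).eval (C.val x)) (Fin.last (n + s)) = _
    rw [Fin.snoc_last]
    rfl
  · intro a
    show Fin.snoc (α := fun _ => Option Bool) (val3 C a) (geval3 (val3 C a) (Gate.not o))
      (Fin.last (n + s)) = _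
    rw [Fin.snoc_last]
    rfl

end Pool.Agent.helper88.HT
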